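import Pool.Agent.R838.IS.Is9
import Pool.Agent.Y671.GL.EC

/-!
# The L-functions of elliptic curves: zeros of `Λ` and of its heat flow at very short times

`E : y² = x³ + a x + b` is an elliptic curve over `ℚ` of conductor `N`, `Λ` its completed L-function, and
`Λ_t = exp (t D²) Λ`, `D = d/ds`, the heat flow: the Riemann hypothesis for `L(E, s)` says that all zeros of `Λ_t` are on
the line `Re s = 1` for all `t > 0`. The number of the zeros of `Λ_t` with ordinate in `(0, T]` is asymptotic to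
`T log T / π`. It is known (`HeatFlowDensity` in this folder) that almost all zeros of `Λ_t` up to height `T` are simple and
on the line if `t` is large compared with `1 / log² T`, the square of the mean distance of the zeros.

Here we treat, without any hypothesis, the remaining times: for `t` small compared with `1 / log² T` the question where
almost all zeros of `Λ_t` up to height `T` are is equivalent to the same question for `L(E, s)` itself.

* At times `t ≤ δ / log² T` the zeros of `Λ_t` up to height `T` reproduce those of `Λ`: the numbers of zeros at distance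
  at least `σ / log T` from the line, and the numbers of simple zeros on the line without other zeros in a box with
  half height `α / log T` and half width `β / log T`, agree up to changes of `σ`, `α`, `β` by `ε` and up to
  `ε T log T` zeros.
* So if `t(T) log² T → 0`, then almost all zeros of `Λ` are within `o(1 / log T)` of the line if and only if this is true
  of `Λ_{t(T)}`; and the same for: almost all zeros are simple, on the line, and isolated at the scale `1 / log T`.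

Proof: the general stability theorem of `Pool.Agent.R838.IS` (used for `ζ` and `Δ` in the starting results
`MP_db1c88_nt`, `MP_cd509c_nt`), applied to the data of the completed L-function of `E` in `Pool.Agent.Y671.GL.EC`.
-/

set_option autoImplicit false

open Complex Filter Topology UpperHalfPlane MatrixGroups CongruenceSubgroup

namespace Pool.Agent.Results.MP_553913_nt.HeatFlowStability

/-- The coefficient `a_p` of `E : y² = x³ + a x + b` at a prime `p ∤ 2 (4a³ + 27b²)`: `p` minus the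
number of pairs `(x, y)` modulo `p` with `y² ≡ x³ + a x + b (mod p)`. -/
noncomputable def ap (a b : ℤ) (p : ℕ) : ℤ :=
  (p : ℤ) - (((Finset.range p ×ˢ Finset.range p).filter
    (fun xy : ℕ × ℕ => (p : ℤ) ∣ (xy.2 : ℤ) ^ 2 -
      ((xy.1 : ℤ) ^ 3 + a * (xy.1 : ℤ) + b))).card : ℤ)

/-- The `n`-th Fourier coefficient of `f`. -/
noncomputable def coef {N : ℕ} (f : CuspForm (Gamma0 N : Subgroup (GL (Fin 2) ℝ)) 2) (n : ℕ) : ℂ :=
  (qExpansion 1 f).coeff n

/-- `f ∈ S_2(Γ₀(N))` is the newform of the elliptic curve `E : y² = x³ + a x + b` of conductor `N` and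
root number `w`: the Fourier coefficients `c(n)` of `f` are real with `c(1) = 1`, they satisfy the
Hecke relations `c(mn) = c(m) c(n)` for coprime `m`, `n` and `c(p^(j+2)) = c(p) c(p^(j+1)) - p c(p^j)`
(without the last term if `p ∣ N`), `f(-1/(Nτ)) = -w N τ² f(τ)`, `c(p) = a_p(E)` for all primes
`p ∤ 2 (4a³ + 27b²)`, `|c(p)| ≤ 2 √p` for all `p ∤ N` (Hasse) and `c(p) = 0, 1, -1` for `p ∣ N`.
By the modularity theorem (Wiles, Taylor-Wiles, Breuil-Conrad-Diamond-Taylor) it exists for every `E`. -/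
structure IsFormOf (a b : ℤ) (N : ℕ) (f : CuspForm (Gamma0 N : Subgroup (GL (Fin 2) ℝ)) 2) (w : ℝ) :
    Prop where
  one : coef f 1 = 1
  real : ∀ n, (coef f n).im = 0
  mul : ∀ m n : ℕ, Nat.Coprime m n → coef f (m * n) = coef f m * coef f n
  pow : ∀ p j : ℕ, p.Prime → coef f (p ^ (j + 2)) = coef f p * coef f (p ^ (j + 1)) -
      (if p ∣ N then 0 else (p : ℂ) * coef f (p ^ j))
  sign : w = 1 ∨ w = -1
  fricke : ∀ τ τ' : ℍ, (τ' : ℂ) * ((N : ℂ) * (τ : ℂ)) = -1 →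
    f τ' = -(w : ℂ) * (N : ℂ) * (τ : ℂ) ^ 2 * f τ
  points : ∀ p : ℕ, p.Prime → ¬ (p : ℤ) ∣ 2 * (4 * a ^ 3 + 27 * b ^ 2) → coef f p = (ap a b p : ℂ)
  good : ∀ p : ℕ, p.Prime → ¬ p ∣ N → ‖coef f p‖ ≤ 2 * Real.sqrt p
  bad : ∀ p : ℕ, p.Prime → p ∣ N → coef f p = 0 ∨ coef f p = 1 ∨ coef f p = -1

/-- `Λ` is the completed L-function of `f`: it is entire and
`Λ(s) = N^(s/2) (2π)^(-s) Γ(s) ∑ c(n) n^(-s)` for `Re s > 2`. -/
def IsCompleted {N : ℕ} (f : CuspForm (Gamma0 N : Subgroup (GL (Fin 2) ℝ)) 2) (Λ : ℂ → ℂ) : Prop :=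
  Differentiable ℂ Λ ∧ ∀ s : ℂ, 2 < s.re →
    Λ s = ((Real.sqrt N / (2 * Real.pi) : ℝ) : ℂ) ^ s * Complex.Gamma s *
      ∑' n : ℕ, coef f (n + 1) * ((n + 1 : ℕ) : ℂ) ^ (-s)

/-- The heat flow `Λ_t = e^{t D²} Λ` (`D = d/ds`) as a Gaussian average:
`Λ_t(s) = π^(-1/2) ∫ exp (-v²) Λ(s + 2 √t v) dv`; in particular `Λ_0 = Λ`. -/
noncomputable def heat (t : ℝ) (Λ : ℂ → ℂ) (s : ℂ) : ℂ :=
  ((1 / Real.sqrt Real.pi : ℝ) : ℂ) *
    ∫ v : ℝ, ((Real.exp (-v ^ 2) : ℝ) : ℂ) * Λ (s + ((2 * Real.sqrt t * v : ℝ) : ℂ))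

/-- The zeros of `Y` with ordinate in `(0, T]`; a zero of order `m` gives `m` elements. -/
def zeros (Y : ℂ → ℂ) (T : ℝ) : Set (ℂ × ℕ) := {p | p.2 < analyticOrderNatAt Y p.1 ∧ (0 < p.1.im ∧ p.1.im ≤ T)}

/-- The zeros of `Y` with ordinate in `(0, T]` at distance at least `σ / log T` from the line `Re s = 1`; a zero of
order `m` gives `m` elements. -/
def far (Y : ℂ → ℂ) (T σ : ℝ) : Set (ℂ × ℕ) :=
  {p | p.2 < analyticOrderNatAt Y p.1 ∧ (0 < p.1.im ∧ p.1.im ≤ T) ∧ σ ≤ |p.1.re - 1| * Real.log T}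

/-- The simple zeros of `Y` on the line `Re s = 1` with ordinate in `(0, T]` without other zeros in the open box with half
height `α / log T` around the ordinate and half width `β / log T` around the line. -/
def iso (Y : ℂ → ℂ) (T α β : ℝ) : Set ℂ :=
  {s | s.re = 1 ∧ (0 < s.im ∧ s.im ≤ T) ∧ analyticOrderNatAt Y s = 1 ∧
    ∀ w : ℂ, Y w = 0 → w ≠ s → α ≤ |w.im - s.im| * Real.log T ∨ β ≤ |w.re - 1| * Real.log T}

/-- Almost all zeros of `Y T` up to height `T` are at the distance `o(1 / log T)` from the line `Re s = 1`. -/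
def NearLine (Y : ℝ → ℂ → ℂ) : Prop := ∀ σ η : ℝ, 0 < σ → 0 < η → ∀ᶠ T : ℝ in atTop,
  ((far (Y T) T σ).ncard : ℝ) ≤ η * (T * Real.log T)

/-- Almost all zeros of `Y T` up to height `T` are simple, on the line `Re s = 1` and isolated: for every `η > 0` there
is `σ > 0` such that for large `T` all but `η T log T` of the zeros are in `iso (Y T) T σ σ`. -/
def EssentiallySimple (Y : ℝ → ℂ → ℂ) : Prop := ∀ η : ℝ, 0 < η → ∃ σ : ℝ, 0 < σ ∧
  ∀ᶠ T : ℝ in atTop, ((zeros (Y T) T).ncard : ℝ) ≤ ((iso (Y T) T σ σ).ncard : ℝ) + η * (T * Real.log T)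

open Pool.Agent.R838.IS in
/-- finiteness of the set of zeros up to height `T` -/
lemma fin_zeros {κ a : ℝ} {u : ℂ} {Λ F : ℂ → ℂ} {FT : ℝ → ℂ → ℂ} (h : HX κ a u Λ F FT) (t T : ℝ) (ht : 0 ≤ t) :
    (zeros (heat t Λ) T).Finite := by
  have hκ := h.kap
  have hb0 : 0 < 2 * κ := by linarith
  have hbc : ((2 * κ : ℝ) : ℂ) ≠ 0 := by exact_mod_cast hb0.ne'
  have h0 : 0 ≤ (2 * κ) ^ 2 * t := by positivity
  have h1 := ZP_f (h.stb.heatd _ h0) (fun s hs => h.stb.strip _ s h0 hs) (fun _ => True) 0 (2 * κ * T)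
  have e1 : ∀ s : ℂ, (a : ℂ) + (((2 * κ : ℝ) : ℂ) * (s - a)) / ((2 * κ : ℝ) : ℂ) = s := fun s => by
    rw [mul_div_cancel_left₀ _ hbc]; ring
  refine Set.Finite.of_injOn (f := fun p : ℂ × ℕ => ((((2 * κ : ℝ) : ℂ) * (p.1 - a), p.2) : ℂ × ℕ)) ?_ ?_ h1
  · rintro p ⟨h2, h3, h4⟩
    have him : (((2 * κ : ℝ) : ℂ) * (p.1 - a)).im = 2 * κ * p.1.im := by
      rw [Complex.im_ofReal_mul, Complex.sub_im, Complex.ofReal_im, sub_zero]
    refine ⟨?_, ?_, trivial⟩
    · show p.2 < analyticOrderNatAt (FT ((2 * κ) ^ 2 * t)) (((2 * κ : ℝ) : ℂ) * (p.1 - a))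
      rw [h.eqn t ht, ord_aff (h.diff t ht) h.une (a : ℂ) hb0, e1]
      exact h2
    · show 0 < (((2 * κ : ℝ) : ℂ) * (p.1 - a)).im ∧ (((2 * κ : ℝ) : ℂ) * (p.1 - a)).im ≤ 2 * κ * T
      rw [him]
      exact ⟨by positivity, mul_le_mul_of_nonneg_left h4 hb0.le⟩
  · intro p _ q _ hpq
    have hpq' := Prod.ext_iff.1 hpq
    have h2 : ((2 * κ : ℝ) : ℂ) * (p.1 - a) = ((2 * κ : ℝ) : ℂ) * (q.1 - a) := hpq'.1
    have h3 : p.2 = q.2 := hpq'.2
    refine Prod.ext ?_ h3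
    rw [← e1 p.1, h2, e1]

/-- **The theorem.** Let `E : y² = x³ + a x + b` be an elliptic curve over `ℚ`, `Λ` its completed L-function and `Λ_t` its
heat flow.
* For every `ε > 0` there are `δ > 0` and `T₀` such that for `T ≥ T₀`, `0 ≤ t ≤ δ / log² T` and all `σ` the numbers of
  zeros up to height `T` at distance at least `σ / log T` from the line, of `Λ` and of `Λ_t`, satisfy
  `far Λ σ ≤ far Λ_t (σ - ε) + ε T log T` and `far Λ_t σ ≤ far Λ (σ - ε) + ε T log T`.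
* The same for the numbers of the simple zeros on the line which are isolated in a box with half height `α / log T` and
  half width `β / log T`, with `α - ε`, `β - ε` on the right (`ε ≤ α ≤ A`, `ε ≤ β`).
* So if `t(T) log² T → 0`, then almost all zeros are at distance `o(1 / log T)` from the line for `Λ` if and only if for
  `Λ_{t(T)}`; and almost all zeros are simple, on the line and isolated for `Λ` if and only if for `Λ_{t(T)}`. -/
theorem result (a b : ℤ) (N : ℕ) [NeZero N] (f : CuspForm (Gamma0 N : Subgroup (GL (Fin 2) ℝ)) 2) (w : ℝ)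
    (_ : 4 * a ^ 3 + 27 * b ^ 2 ≠ 0) (hf : IsFormOf a b N f w) :
    ∃ Λ : ℂ → ℂ, IsCompleted f Λ ∧ (∀ Λ', IsCompleted f Λ' → Λ' = Λ) ∧
      (∀ s : ℂ, Λ (2 - s) = (w : ℂ) * Λ s) ∧ heat 0 Λ = Λ ∧ (∀ t T : ℝ, 0 ≤ t → (zeros (heat t Λ) T).Finite) ∧
    (∀ ε : ℝ, 0 < ε → ∃ δ T₀ : ℝ, 0 < δ ∧ ∀ T t : ℝ, T₀ ≤ T → 0 ≤ t → t ≤ δ / Real.log T ^ 2 → ∀ σ : ℝ,
      ((far Λ T σ).ncard : ℝ) ≤ ((far (heat t Λ) T (σ - ε)).ncard : ℝ) + ε * (T * Real.log T) ∧
      ((far (heat t Λ) T σ).ncard : ℝ) ≤ ((far Λ T (σ - ε)).ncard : ℝ) + ε * (T * Real.log T)) ∧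
    (∀ A ε : ℝ, 0 < ε → ∃ δ T₀ : ℝ, 0 < δ ∧ ∀ T t α β : ℝ, T₀ ≤ T → 0 ≤ t → t ≤ δ / Real.log T ^ 2 →
      ε ≤ α → α ≤ A → ε ≤ β →
      ((iso Λ T α β).ncard : ℝ) ≤ ((iso (heat t Λ) T (α - ε) (β - ε)).ncard : ℝ) + ε * (T * Real.log T) ∧
      ((iso (heat t Λ) T α β).ncard : ℝ) ≤ ((iso Λ T (α - ε) (β - ε)).ncard : ℝ) + ε * (T * Real.log T)) ∧
    (∀ t : ℝ → ℝ, (∀ T, 0 ≤ t T) → Tendsto (fun T => t T * Real.log T ^ 2) atTop (𝓝 0) →
      (NearLine (fun _ => Λ) ↔ NearLine (fun T => heat (t T) Λ)) ∧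
      (EssentiallySimple (fun _ => Λ) ↔ EssentiallySimple (fun T => heat (t T) Λ))) := by
  have hf' : Pool.Agent.W169.HF.IsForm N f w :=
    { one := hf.one
      real := hf.real
      mul := hf.mul
      pow := hf.pow
      sign := hf.sign
      fricke := hf.fricke
      good := hf.good
      bad := fun p hp hpN => by
        have h1 : (1 : ℝ) ≤ Real.sqrt p := by
          rw [Real.one_le_sqrt]
          exact_mod_cast hp.one_le
        have h2 : ‖coef f p‖ ≤ 1 := by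
          rcases hf.bad p hp hpN with h | h | h <;> simp [h]
        exact h2.trans h1 }
  obtain ⟨Λ, hΛ, hfe, -, -⟩ := Pool.Agent.W174.HF.nf1 N f w hf'
  obtain ⟨u, H, Z, hu, hG, hst, -, -, hH⟩ := Pool.Agent.Y671.GL.ec_data hf' hΛ
  have e1 : (fun z : ℂ => u * Λ (1 + z)) = fun z => u * Λ (((1 : ℝ) : ℂ) + z) := by
    funext z
    rw [Complex.ofReal_one]
  rw [e1] at hG hH hst
  obtain ⟨F, FT, hx⟩ := Pool.Agent.R838.IS.hx_of (κ := 1) (by norm_num) hu (Pool.Agent.Y693.GL.gy_one hG) hst hH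
  have hz : Pool.Agent.W169.HF.heat 0 Λ = Λ := Pool.Agent.R838.IS.heat_zero Λ
  refine ⟨Λ, hΛ, fun Λ' h' => Pool.Agent.W169.HF.completed_unique h' hΛ, hfe, hz, fin_zeros hx,
    fun ε hε => ?_, fun A ε hε => ?_, fun t ht hl => ?_⟩
  · obtain ⟨δ, T0, hδ, hT0, h⟩ := Pool.Agent.R838.IS.cmpLF hx ε hε
    refine ⟨δ, T0, hδ, fun T t h1 h2 h3 σ => ?_⟩
    have h0 : (0 : ℝ) ≤ δ / Real.log T ^ 2 := by positivity
    have k1 := h T 0 t σ h1 le_rfl h2 (Or.inl rfl) h0 h3
    have k2 := h T t 0 σ h1 h2 le_rfl (Or.inr rfl) h3 h0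
    rw [hz] at k1 k2
    exact ⟨k1, k2⟩
  · obtain ⟨δ, T0, hδ, hT0, h⟩ := Pool.Agent.R838.IS.cmpLI hx (max A 0) (le_max_right _ _) ε hε
    refine ⟨δ, T0, hδ, fun T t α β h1 h2 h3 h4 h5 h6 => ?_⟩
    have h0 : (0 : ℝ) ≤ δ / Real.log T ^ 2 := by positivity
    have k1 := h T 0 t α β h1 le_rfl h2 (Or.inl rfl) h0 h3 h4 (h5.trans (le_max_left _ _)) h6
    have k2 := h T t 0 α β h1 h2 le_rfl (Or.inr rfl) h3 h0 h4 (h5.trans (le_max_left _ _)) h6
    rw [hz] at k1 k2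
    exact ⟨k1, k2⟩
  · exact (Pool.Agent.R838.IS.equivL hx ht hl).symm

end Pool.Agent.Results.MP_553913_nt.HeatFlowStability
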