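import Pool.Agent.T6.H6.LG.Sc
import Pool.Agent.T6.H6.LG.Cmb
import Pool.Agent.T6.H6.LG.Ec
import Pool.Agent.Y671.GL.EC

/-!
# The Laguerre inequalities for L-functions of elliptic curves hold off an exponentially small set of heights

`E : y² = x³ + a x + b` is an elliptic curve over `ℚ`, `Λ(s) = Λ(E, s)` its completed L-function and

  `|Λ(1 + i t + x)|² = ∑ L_n(t) x^(2n)`   (`x`, `t` real).

The Riemann hypothesis for `L(E, s)` holds if and only if `L_n(t) ≥ 0` for all `n` and all real `t` (the generalised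
Laguerre inequalities); for `n` larger than a constant times the logarithm of the height `L_n(t) > 0` is known (starting
file `LaguerreConductor` of this folder). Here we prove, unconditionally and for every `E`, that there are `c, C > 0` with

  `meas {t : |t| ≤ T, L_n(t) ≤ 0 for some n ≥ m} ≤ C exp (-c m) T`   for all `m` and all `T > 0`.

So for almost all `t` the inequalities hold for all `n` from a bounded index on: for every function `m(T)` tending to
infinity, however slowly, all but `o(T)` of the heights `t` in `[-T, T]` satisfy `L_n(t) > 0` for all `n ≥ m(T)`.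

Proof: at all heights `t` up to a proportion `C exp (-c n)` the function `Λ` looks at the scale `n / log t` like
`exp (z log t)` plus its reflection (starting modules `Pool.Agent.Y671`, `Pool.Agent.R838`). In such a place
`Λ(1 + i t + z) conj Λ(1 + i t + conj z)` is on the right half of the circle of radius `n / log t` so close to
`exp (2 z log t)` that the saddle point lemmas of the starting modules `Pool.Agent.H353R7`, `Pool.Agent.TH803.LU` show that
the coefficient of `z^(2n)` is positive (modules `Pool.Agent.T6.H6.LG`).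
-/

set_option autoImplicit false

open Complex UpperHalfPlane MatrixGroups CongruenceSubgroup

namespace Pool.Agent.Results.MP_553913_nt.LaguerreInequalities

open scoped ComplexConjugate
open MeasureTheory

/-- The coefficient `a_p` of `E : y² = x³ + a x + b` at a prime `p ∤ 2 (4a³ + 27b²)`: `p` minus the
number of pairs `(x, y)` modulo `p` with `y² ≡ x³ + a x + b (mod p)`. -/
noncomputable def ap (a b : ℤ) (p : ℕ) : ℤ :=
  (p : ℤ) - (((Finset.range p ×ˢ Finset.range p).filter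
    (fun xy : ℕ × ℕ => (p : ℤ) ∣ (xy.2 : ℤ) ^ 2 -
      ((xy.1 : ℤ) ^ 3 + a * (xy.1 : ℤ) + b))).card : ℤ)

/-- The `n`-th Fourier coefficient of `f`. -/
noncomputable def coef {N : ℕ} (f : CuspForm (Gamma0 N : Subgroup (GL (Fin 2) ℝ)) 2) (n : ℕ) : ℂ :=
  (qExpansion 1 f).coeff n

/-- `f ∈ S_2(Γ₀(N))` is the newform of the elliptic curve `E : y² = x³ + a x + b` of conductor `N` and
root number `w`: the Fourier coefficients `c(n)` of `f` are real with `c(1) = 1`, they satisfy the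
Hecke relations `c(mn) = c(m) c(n)` for coprime `m`, `n` and `c(p^(j+2)) = c(p) c(p^(j+1)) - p c(p^j)`
(without the last term if `p ∣ N`), `f(-1/(Nτ)) = -w N τ² f(τ)`, `c(p) = a_p(E)` for all primes
`p ∤ 2 (4a³ + 27b²)`, `|c(p)| ≤ 2 √p` for all `p ∤ N` (Hasse) and `c(p) = 0, 1, -1` for `p ∣ N`.
By the modularity theorem (Wiles, Taylor-Wiles, Breuil-Conrad-Diamond-Taylor) it exists for every `E`. -/
structure IsFormOf (a b : ℤ) (N : ℕ) (f : CuspForm (Gamma0 N : Subgroup (GL (Fin 2) ℝ)) 2) (w : ℝ) :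
    Prop where
  one : coef f 1 = 1
  real : ∀ n, (coef f n).im = 0
  mul : ∀ m n : ℕ, Nat.Coprime m n → coef f (m * n) = coef f m * coef f n
  pow : ∀ p j : ℕ, p.Prime → coef f (p ^ (j + 2)) = coef f p * coef f (p ^ (j + 1)) -
      (if p ∣ N then 0 else (p : ℂ) * coef f (p ^ j))
  sign : w = 1 ∨ w = -1
  fricke : ∀ τ τ' : ℍ, (τ' : ℂ) * ((N : ℂ) * (τ : ℂ)) = -1 →
    f τ' = -(w : ℂ) * (N : ℂ) * (τ : ℂ) ^ 2 * f τ
  points : ∀ p : ℕ, p.Prime → ¬ (p : ℤ) ∣ 2 * (4 * a ^ 3 + 27 * b ^ 2) → coef f p = (ap a b p : ℂ)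
  good : ∀ p : ℕ, p.Prime → ¬ p ∣ N → ‖coef f p‖ ≤ 2 * Real.sqrt p
  bad : ∀ p : ℕ, p.Prime → p ∣ N → coef f p = 0 ∨ coef f p = 1 ∨ coef f p = -1

/-- `Λ` is the completed L-function of `f`: it is entire and
`Λ(s) = N^(s/2) (2π)^(-s) Γ(s) ∑ c(n) n^(-s)` for `Re s > 2`. -/
def IsCompleted {N : ℕ} (f : CuspForm (Gamma0 N : Subgroup (GL (Fin 2) ℝ)) 2) (Λ : ℂ → ℂ) : Prop :=
  Differentiable ℂ Λ ∧ ∀ s : ℂ, 2 < s.re →
    Λ s = ((Real.sqrt N / (2 * Real.pi) : ℝ) : ℂ) ^ s * Complex.Gamma s *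
      ∑' n : ℕ, coef f (n + 1) * ((n + 1 : ℕ) : ℂ) ^ (-s)

/-- The `n`-th Laguerre expression of `Λ` at height `t`: the coefficient of `x^(2n)` in
`|Λ(1 + i t + x)|²`, `x` real. -/
noncomputable def L (Λ : ℂ → ℂ) (n : ℕ) (t : ℝ) : ℝ :=
  iteratedDeriv (2 * n) (fun x : ℝ => ‖Λ (1 + t * Complex.I + x)‖ ^ 2) 0 / ((2 * n).factorial : ℝ)

lemma L_eq {Λ : ℂ → ℂ} (h : Differentiable ℂ Λ) (n : ℕ) (t : ℝ) :
    L Λ n t = Pool.Agent.TH803.LU.LC (fun u => Λ (1 + t * Complex.I + u)) n := by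
  have hd : Differentiable ℂ (fun u => Λ (1 + t * Complex.I + u)) :=
    h.comp (by fun_prop : Differentiable ℂ fun u : ℂ => 1 + t * Complex.I + u)
  rw [Pool.Agent.TH803.LU.LC_eq hd]
  rfl

/-- **Main theorem.** Let `E : y² = x³ + a x + b` be an elliptic curve over `ℚ` and `Λ` its completed L-function. The
Riemann hypothesis for `E` is equivalent to `L_n(t) ≥ 0` for all `n`, `t`. Unconditionally there are `c, C > 0` such that
for all `m` and `T > 0` the measure of the set of the `t ∈ [-T, T]` with `L_n(t) ≤ 0` for some `n ≥ m` is at most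
`C exp (-c m) T`. -/
theorem result (a b : ℤ) (N : ℕ) [NeZero N] (f : CuspForm (Gamma0 N : Subgroup (GL (Fin 2) ℝ)) 2) (w : ℝ)
    (_ : 4 * a ^ 3 + 27 * b ^ 2 ≠ 0) (hf : IsFormOf a b N f w) :
    ∃ Λ : ℂ → ℂ, IsCompleted f Λ ∧ (∀ Λ', IsCompleted f Λ' → Λ' = Λ) ∧
      ((∀ s : ℂ, Λ s = 0 → s.re = 1) ↔ ∀ (n : ℕ) (t : ℝ), 0 ≤ L Λ n t) ∧
      ∃ c C : ℝ, 0 < c ∧ 0 < C ∧ ∀ (m : ℕ) (T : ℝ), 0 < T →
        volume {t : ℝ | |t| ≤ T ∧ ∃ n : ℕ, m ≤ n ∧ L Λ n t ≤ 0} ≤
          ENNReal.ofReal (C * T * Real.exp (-(c * m))) := by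
  have hf' : Pool.Agent.W169.HF.IsForm N f w :=
    { one := hf.one
      real := hf.real
      mul := hf.mul
      pow := hf.pow
      sign := hf.sign
      fricke := hf.fricke
      good := hf.good
      bad := fun p hp hpN => by
        have h1 : (1 : ℝ) ≤ Real.sqrt p := by
          rw [Real.one_le_sqrt]
          exact_mod_cast hp.one_le
        have h2 : ‖coef f p‖ ≤ 1 := by
          rcases hf.bad p hp hpN with h | h | h <;> simp [h]
        exact h2.trans h1 }
  obtain ⟨Λ, hΛ, hfe, -, -⟩ := Pool.Agent.W174.HF.nf1 N f w hf'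
  obtain ⟨v, H, Z, hv, hG, hst, hA, hL, hH⟩ := Pool.Agent.Y671.GL.ec_data hf' hΛ
  have e1 : (fun z : ℂ => v * Λ (1 + z)) = fun z => v * Λ (((1 : ℝ) : ℂ) + z) := by
    funext z
    rw [Complex.ofReal_one]
  rw [e1] at hG hA hL hst hH
  have hGY := Pool.Agent.Y693.GL.gy_one hG
  have hdy := Pool.Agent.T6.H6.LG.lamL (by norm_num) hv hGY hA hL hst hH hΛ.1
  obtain ⟨⟨A1, hA1, hbig⟩, hiff⟩ := Pool.Agent.T6.H6.LG.ec_large hf' hΛ.1 hΛ.2
  -- the symmetry `t ↦ -t`
  have hv0 : 0 < ‖v‖ := norm_pos_iff.2 hv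
  have hsy : ∀ z : ℂ, ‖Λ (1 + conj z)‖ = ‖Λ (1 + z)‖ := by
    intro z
    have h1 := hGY.cg.cf.symm z
    simp only [Complex.ofReal_one] at h1
    have h2 := congrArg norm h1
    rw [Complex.norm_conj, norm_mul, norm_mul] at h2
    have h3 := mul_left_cancel₀ hv0.ne' h2
    have h4 := hfe (1 + conj z)
    have e2 : (2 : ℂ) - (1 + conj z) = 1 + -conj z := by ring
    rw [e2] at h4
    rw [← h3, h4, norm_mul]
    rcases hf.sign with h | h <;> simp [h]
  have hLsy : ∀ (n : ℕ) (t : ℝ), L Λ n (-t) = L Λ n t := by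
    intro n t
    unfold L
    congr 2
    funext x
    have h1 := hsy (t * Complex.I + x)
    have e2 : (1 : ℂ) + conj ((t : ℂ) * Complex.I + x) = 1 + ((-t : ℝ) : ℂ) * Complex.I + x := by
      rw [map_add, map_mul, Complex.conj_ofReal, Complex.conj_ofReal, Complex.conj_I]
      push_cast
      ring
    have e3 : (1 : ℂ) + ((t : ℂ) * Complex.I + x) = 1 + t * Complex.I + x := by ring
    rw [e2, e3] at h1
    rw [h1]
  refine ⟨Λ, hΛ, fun Λ' h' => Pool.Agent.W169.HF.completed_unique h' hΛ, ?_, ?_⟩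
  · rw [hiff]
    simp only [L_eq hΛ.1]
  · refine Pool.Agent.T6.H6.LG.comb (Bad := fun n t => L Λ n t ≤ 0) (fun n t h => ?_) hA1 (fun n t hn => ?_)
      (fun A hA => ?_)
    · rwa [hLsy]
    · rw [not_le, L_eq hΛ.1]
      exact hbig n t hn
    · obtain ⟨c, C, T0, n0, hc, hC, hT0, H1⟩ := hdy A hA
      refine ⟨c, C, T0, n0, hc, hC, hT0, fun T n h1 h2 h3 => ?_⟩
      have h4 := H1 T n h1 h2 h3
      simp only [Complex.ofReal_one] at h4
      simp only [L_eq hΛ.1]
      exact h4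

end Pool.Agent.Results.MP_553913_nt.LaguerreInequalities
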