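import Pool.Agent.T6.H10.SA.Lam
import Pool.Agent.Y671.GL.EC

/-!
# The Riemann hypothesis for elliptic curves and averages of two shifts of the L-function

`E : y² = x³ + a x + b` is an elliptic curve over `ℚ` of conductor `N` and root number `w`, `Λ` its completed L-function,
`Λ(2 - s) = w Λ(s)`. For `h > 0` and real `θ` let

`A(s) = A_{h,θ}(s) = e^{iθ} Λ(s + h) + w e^{-iθ} Λ(s - h)`.

On the line `Re s = 1` this is a real or purely imaginary function, `2 Re (e^{iθ} Λ(s + h))` or `2 i Im (...)`. Averages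
of this kind were studied by Taylor (1945, `h = 1/2` for `ζ`), de Bruijn, Ki, Lagarias (2005), Velásquez Castañón (2010):
if `L(E, s)` satisfies the Riemann hypothesis, or for `h ≥ 1/2`, all zeros of `A` are on the line and asymptotically
equally spaced.

So the Riemann hypothesis for `L(E, s)` says exactly that for all `h > 0` and `θ` all zeros of `A_{h,θ}` are on the line
(this is part of the theorem below). We prove without any hypothesis that this is true for almost all zeros: for every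
`ε > 0` there are `c, C > 0` such that for all `θ`, `0 < h ≤ 1/2` and `T ≥ 2` at most the proportion `C exp (-c h log T)` of
the zeros of `A_{h,θ}` with imaginary part in `(T, 2T]`, counted with multiplicity, are off the line, or multiple, or not
followed by a simple zero on the line at the distance `(π + O(ε)) / log (Im s)` with no zeros in between.

So, as soon as the shift `h` is large compared with the mean distance `π / log T` of the zeros at height `T`, almost all
zeros of `A_{h,θ}` are simple, on the line and equally spaced, uniformly in `θ`; `h` may depend on `T`.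

Proof: at all heights, except for a set of proportion `exp (-c a)`, the function `Λ` looks at the scale `a / log T` like
`exp (z log T)` plus its reflection (starting modules `Pool.Agent.Y671` and imports, by helper671 and others). New here
(`Pool.Agent.T6.H10.SA`): at such heights on all scales between `h` and a constant `|Λ(z - h)| < |Λ(z + h)|` to the right of
the line, and on the line the argument of `Λ(z + h)` rotates with constant speed; at the other heights one counts zeros with
Jensen's formula at the smallest good scale. The equivalence with the Riemann hypothesis follows from de Bruijn's inequality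
and an intermediate value argument.
-/

set_option autoImplicit false

open Complex UpperHalfPlane MatrixGroups CongruenceSubgroup

namespace Pool.Agent.Results.MP_553913_nt.ShiftedAverages

/-- The coefficient `a_p` of `E : y² = x³ + a x + b` at a prime `p ∤ 2 (4a³ + 27b²)`: `p` minus the
number of pairs `(x, y)` modulo `p` with `y² ≡ x³ + a x + b (mod p)`. -/
noncomputable def ap (a b : ℤ) (p : ℕ) : ℤ :=
  (p : ℤ) - (((Finset.range p ×ˢ Finset.range p).filter
    (fun xy : ℕ × ℕ => (p : ℤ) ∣ (xy.2 : ℤ) ^ 2 -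
      ((xy.1 : ℤ) ^ 3 + a * (xy.1 : ℤ) + b))).card : ℤ)

/-- The `n`-th Fourier coefficient of `f`. -/
noncomputable def coef {N : ℕ} (f : CuspForm (Gamma0 N : Subgroup (GL (Fin 2) ℝ)) 2) (n : ℕ) : ℂ :=
  (qExpansion 1 f).coeff n

/-- `f ∈ S_2(Γ₀(N))` is the newform of the elliptic curve `E : y² = x³ + a x + b` of conductor `N` and
root number `w`: the Fourier coefficients `c(n)` of `f` are real with `c(1) = 1`, they satisfy the
Hecke relations `c(mn) = c(m) c(n)` for coprime `m`, `n` and `c(p^(j+2)) = c(p) c(p^(j+1)) - p c(p^j)`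
(without the last term if `p ∣ N`), `f(-1/(Nτ)) = -w N τ² f(τ)`, `c(p) = a_p(E)` for all primes
`p ∤ 2 (4a³ + 27b²)`, `|c(p)| ≤ 2 √p` for all `p ∤ N` (Hasse) and `c(p) = 0, 1, -1` for `p ∣ N`.
By the modularity theorem (Wiles, Taylor-Wiles, Breuil-Conrad-Diamond-Taylor) it exists for every `E`. -/
structure IsFormOf (a b : ℤ) (N : ℕ) (f : CuspForm (Gamma0 N : Subgroup (GL (Fin 2) ℝ)) 2) (w : ℝ) :
    Prop where
  one : coef f 1 = 1
  real : ∀ n, (coef f n).im = 0
  mul : ∀ m n : ℕ, Nat.Coprime m n → coef f (m * n) = coef f m * coef f n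
  pow : ∀ p j : ℕ, p.Prime → coef f (p ^ (j + 2)) = coef f p * coef f (p ^ (j + 1)) -
      (if p ∣ N then 0 else (p : ℂ) * coef f (p ^ j))
  sign : w = 1 ∨ w = -1
  fricke : ∀ τ τ' : ℍ, (τ' : ℂ) * ((N : ℂ) * (τ : ℂ)) = -1 →
    f τ' = -(w : ℂ) * (N : ℂ) * (τ : ℂ) ^ 2 * f τ
  points : ∀ p : ℕ, p.Prime → ¬ (p : ℤ) ∣ 2 * (4 * a ^ 3 + 27 * b ^ 2) → coef f p = (ap a b p : ℂ)
  good : ∀ p : ℕ, p.Prime → ¬ p ∣ N → ‖coef f p‖ ≤ 2 * Real.sqrt p
  bad : ∀ p : ℕ, p.Prime → p ∣ N → coef f p = 0 ∨ coef f p = 1 ∨ coef f p = -1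

/-- `Λ` is the completed L-function of `f`: it is entire and
`Λ(s) = N^(s/2) (2π)^(-s) Γ(s) ∑ c(n) n^(-s)` for `Re s > 2`. -/
def IsCompleted {N : ℕ} (f : CuspForm (Gamma0 N : Subgroup (GL (Fin 2) ℝ)) 2) (Λ : ℂ → ℂ) : Prop :=
  Differentiable ℂ Λ ∧ ∀ s : ℂ, 2 < s.re →
    Λ s = ((Real.sqrt N / (2 * Real.pi) : ℝ) : ℂ) ^ s * Complex.Gamma s *
      ∑' n : ℕ, coef f (n + 1) * ((n + 1 : ℕ) : ℂ) ^ (-s)

/-- The average of two shifts `A_{h,θ}(s) = e^{iθ} Λ(s + h) + w e^{-iθ} Λ(s - h)`. -/
noncomputable def avg (Λ : ℂ → ℂ) (w : ℝ) (h θ : ℝ) (s : ℂ) : ℂ :=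
  Complex.exp (θ * Complex.I) * Λ (s + h) + (w : ℂ) * Complex.exp (-(θ * Complex.I)) * Λ (s - h)

/-- The zeros of `A` with imaginary part in `(T, 2T]`. -/
def Zer (A : ℂ → ℂ) (T : ℝ) : Set ℂ := {s | A s = 0 ∧ T < s.im ∧ s.im ≤ 2 * T}

/-- The next zero of `A` above `s` is simple and lies vertically above `s`, at a distance `g` with
`|g log (Im s) - π| ≤ ε`; and `s` and `s + i g` are the only zeros with imaginary part in `[Im s, Im s + g]`. -/
def Followed (A : ℂ → ℂ) (ε : ℝ) (s : ℂ) : Prop :=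
  ∃ g : ℝ, 0 < g ∧ |g * Real.log s.im - Real.pi| ≤ ε ∧
    A (s + g * Complex.I) = 0 ∧ deriv A (s + g * Complex.I) ≠ 0 ∧
    ∀ z : ℂ, A z = 0 → s.im ≤ z.im → z.im ≤ s.im + g → z = s ∨ z = s + g * Complex.I

/-- The exceptional ones: off the line `Re s = 1`, or multiple, or not followed by a simple zero at the
distance `(π + O(ε)) / log (Im s)`. -/
def Exc (A : ℂ → ℂ) (ε T : ℝ) : Set ℂ :=
  {s | s ∈ Zer A T ∧ (s.re ≠ 1 ∨ deriv A s = 0 ∨ ¬ Followed A ε s)}

/-- The number of points of `B`, each counted with its multiplicity as a zero of `A`. -/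
noncomputable def num (A : ℂ → ℂ) (B : Set ℂ) : ℕ :=
  ∑ᶠ s ∈ B, analyticOrderNatAt A s

/-- **Main theorem.** Let `E : y² = x³ + a x + b` be an elliptic curve over `ℚ`, `Λ` its completed L-function, `w` its root
number, `A_{h,θ}(s) = e^{iθ} Λ(s + h) + w e^{-iθ} Λ(s - h)`.
* All zeros of `Λ` are on the line `Re s = 1` (the Riemann hypothesis for `L(E, s)`) if and only if for all `h > 0` and all
  `θ` all zeros of `A_{h,θ}` are on the line.
* For every `ε > 0` there are `c, C > 0` such that for all `θ`, `0 < h ≤ 1/2` and `T ≥ 2` at most the proportion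
  `C exp (-c h log T)` of the zeros of `A_{h,θ}` with imaginary part in `(T, 2T]`, counted with multiplicity, are off the
  line `Re s = 1`, or multiple, or not followed by a simple zero on the line at the distance `(π + O(ε)) / log (Im s)` with
  no zeros in between. -/
theorem result (a b : ℤ) (N : ℕ) [NeZero N] (f : CuspForm (Gamma0 N : Subgroup (GL (Fin 2) ℝ)) 2) (w : ℝ)
    (_ : 4 * a ^ 3 + 27 * b ^ 2 ≠ 0) (hf : IsFormOf a b N f w) :
    ∃ Λ : ℂ → ℂ, IsCompleted f Λ ∧ (∀ Λ', IsCompleted f Λ' → Λ' = Λ) ∧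
      (∀ s : ℂ, Λ (2 - s) = (w : ℂ) * Λ s) ∧
      (∀ h θ T : ℝ, 0 < h → (Zer (avg Λ w h θ) T).Finite) ∧
      ((∀ ρ : ℂ, Λ ρ = 0 → ρ.re = 1) ↔
        ∀ (h θ : ℝ) (s : ℂ), 0 < h → avg Λ w h θ s = 0 → s.re = 1) ∧
      ∀ ε : ℝ, 0 < ε → ∃ c C : ℝ, 0 < c ∧ 0 < C ∧ ∀ h θ T : ℝ, 0 < h → h ≤ 1 / 2 → 2 ≤ T →
        (num (avg Λ w h θ) (Exc (avg Λ w h θ) ε T) : ℝ) ≤
          C * Real.exp (-(c * h * Real.log T)) * num (avg Λ w h θ) (Zer (avg Λ w h θ) T) := by
  have hf' : Pool.Agent.W169.HF.IsForm N f w :=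
    { one := hf.one
      real := hf.real
      mul := hf.mul
      pow := hf.pow
      sign := hf.sign
      fricke := hf.fricke
      good := hf.good
      bad := fun p hp hpN => by
        have h1 : (1 : ℝ) ≤ Real.sqrt p := by
          rw [Real.one_le_sqrt]
          exact_mod_cast hp.one_le
        have h2 : ‖coef f p‖ ≤ 1 := by
          rcases hf.bad p hp hpN with h | h | h <;> simp [h]
        exact h2.trans h1 }
  obtain ⟨Λ, hΛ, hfe, hconj, -⟩ := Pool.Agent.W174.HF.nf1 N f w hf'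
  obtain ⟨v, H, Z, hv, hG, hst, hA, -, -⟩ := Pool.Agent.Y671.GL.ec_data hf' hΛ
  -- the relation between `v` and the root number
  have hw : v * (w : ℂ) = (starRingEnd ℂ) v := by
    have hne : Λ 3 ≠ 0 := by
      intro h0
      have := hst 2 (by
        show v * Λ (1 + 2) = 0
        norm_num [h0])
      norm_num at this
    have h1 := hG.cg.cf.symm 2
    have e1 : (1 : ℂ) + -(starRingEnd ℂ) 2 = 2 - 3 := by
      rw [Complex.conj_ofNat]; norm_num
    have e2 : (1 : ℂ) + 2 = 3 := by norm_num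
    rw [e1, hfe, e2, map_mul] at h1
    have h2 : (starRingEnd ℂ) (Λ 3) = Λ 3 := by
      rw [← hconj, Complex.conj_ofNat]
    rw [h2, ← mul_assoc] at h1
    exact mul_right_cancel₀ hne h1
  have e1 : (fun z : ℂ => v * Λ (1 + z)) = fun z => v * Λ (((1 : ℝ) : ℂ) + z) := by
    funext z
    rw [Complex.ofReal_one]
  rw [e1] at hG hA hst
  obtain ⟨h1, h2, h3⟩ := Pool.Agent.T6.H10.SA.lam_main (by norm_num) hv hw (Pool.Agent.Y693.GL.gy_one hG) hA hst hΛ.1
  refine ⟨Λ, hΛ, fun Λ' h' => Pool.Agent.W169.HF.completed_unique h' hΛ, hfe, h1, ?_, ?_⟩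
  · constructor
    · intro hRH h θ s hh hs
      refine (h2 h hh).2 (fun ρ hρ => ?_) θ s hs
      rw [hRH ρ hρ, sub_self, abs_zero]
      exact hh.le
    · intro hall ρ hρ
      have h4 : |ρ.re - 1| ≤ 0 := by
        by_contra hcon
        push Not at hcon
        have h5 := (h2 (|ρ.re - 1| / 2) (by positivity)).1 (fun θ s hs => hall _ θ s (by positivity) hs) ρ hρ
        linarith
      have h5 := abs_eq_zero.1 (le_antisymm h4 (abs_nonneg _))
      linarith
  · intro ε hε
    obtain ⟨c, C, hc, hC, h4⟩ := h3 ε hε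
    refine ⟨c, C, hc, hC, fun h θ T hh hh2 hT => ?_⟩
    have h5 := h4 h θ T hh hh2 hT
    have e2 : Exc (avg Λ w h θ) ε T = Pool.Agent.T6.H10.SA.EA (Pool.Agent.T6.H10.SA.avg Λ w h θ) 1 ε 1 T := by
      unfold Exc Pool.Agent.T6.H10.SA.EA Followed Pool.Agent.T6.H10.SA.Fol Zer
      simp only [one_mul]
      rfl
    rw [e2, mul_assoc c h]
    exact h5

end Pool.Agent.Results.MP_553913_nt.ShiftedAverages
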